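import Pool.Agent.P.MP_045578_al.DataS

set_option autoImplicit false

namespace Pool.Agent.P.MP_045578_al

noncomputable def big2 (N W : List Tm) : Bool :=
  cond (allOk N) (isNil (merge (mulL N dDt) (negL (mulL dC3 W)))) false

noncomputable def big1 (M W : List Tm) : Bool := cond (allOk M) (big2 (mulL dD M) W) false

lemma big1_spec (S T W : List Tm) (hD : allOk dD = true) (hDt : allOk dDt = true)
    (hC : allOk dC3 = true) (hS : allOk S = true) (hT : allOk T = true) (hW : allOk W = true)
    (h : big1 (mulL S T) W = true) :
    evf toP dD * (evf toP S * evf toP T) * evf toP dDt = evf toP dC3 * evf toP W := by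
  unfold big1 at h
  cases h1 : allOk (mulL S T)
  · rw [h1] at h; exact absurd h (by simp)
  rw [h1, cond_true] at h
  unfold big2 at h
  cases h2 : allOk (mulL dD (mulL S T))
  · rw [h2] at h; exact absurd h (by simp)
  rw [h2, cond_true] at h
  have := eq_of_isNil _ _ h
  rwa [evf_mulL _ _ h2 hDt, evf_mulL _ _ hD h1, evf_mulL _ _ hS hT, evf_mulL _ _ hC hW] at this

end Pool.Agent.P.MP_045578_al
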