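import Pool.Agent.P.MP_045578_al.DataS

set_option autoImplicit false

namespace Pool.Agent.P.MP_045578_al

lemma ok_S1 : allOk dS1 = true := by decide +kernel
lemma ok_S1p : allOk dS1p = true := by decide +kernel
lemma ok_S2 : allOk dS2 = true := by decide +kernel
lemma ok_S2p : allOk dS2p = true := by decide +kernel
lemma ok_D : allOk dD = true := by decide +kernel
lemma ok_Dt : allOk dDt = true := by decide +kernel
lemma ok_C : allOk dC = true := by decide +kernel
lemma ok_C2 : allOk dC2 = true := by decide +kernel
lemma ok_C3 : allOk dC3 = true := by decide +kernel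

lemma ck_DDt : isNil (merge (mulL dD dDt) (negL dC)) = true := by decide +kernel
lemma ck_DtD : isNil (merge (mulL dDt dD) (negL dC)) = true := by decide +kernel
lemma ck_C2 : isNil (merge (mulL dC dC) (negL dC2)) = true := by decide +kernel
lemma ck_C3 : isNil (merge (mulL dC2 dC) (negL dC3)) = true := by decide +kernel
lemma ck_S1 : isNil (merge (mulL dS1 dS1p) (negL dC2)) = true := by decide +kernel
lemma ck_S1p : isNil (merge (mulL dS1p dS1) (negL dC2)) = true := by decide +kernel

end Pool.Agent.P.MP_045578_al
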