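import Pool.Agent.P.MP_045578_al.DataS

set_option autoImplicit false

namespace Pool.Agent.P.MP_045578_al

lemma ck_S2 : isNil (merge (mulL dS2 dS2p) (negL dC2)) = true := by decide +kernel

end Pool.Agent.P.MP_045578_al
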