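import Pool.Agent.P.MP_045578_al.Chk0
import Pool.Agent.P.MP_045578_al.DataW

set_option autoImplicit false

namespace Pool.Agent.P.MP_045578_al

lemma ok_W : allOk dW = true := by decide +kernel
lemma ck_W : big1 (mulL dS1 dS2) dW = true := by decide +kernel
lemma ck_coef : coefP 991296 dW = 332 ∧ coefN 991296 dW = 0 := by decide +kernel
lemma ck_coef2 : coefP 973762 dW = 1 ∧ coefN 973762 dW = 0 ∧
    coefP 1009090 dW = 1 ∧ coefN 1009090 dW = 0 := by decide +kernel

end Pool.Agent.P.MP_045578_al
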