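import Pool.Agent.P.MP_045578_al.Chk0
import Pool.Agent.P.MP_045578_al.DataV

set_option autoImplicit false

namespace Pool.Agent.P.MP_045578_al

lemma ok_V : allOk dV = true := by decide +kernel
lemma ck_V : big1 (mulL dS2p dS1p) dV = true := by decide +kernel

end Pool.Agent.P.MP_045578_al
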