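import Pool.Agent.P.MP_045578_al.Chk1
import Pool.Agent.P.MP_045578_al.Chk2
import Pool.Agent.P.MP_045578_al.Chk3
import Pool.Agent.P.MP_045578_al.Chk4
import Pool.Agent.P.MP_045578_al.Chk5

set_option autoImplicit false

namespace Pool.Agent.P.MP_045578_al

open MonoidAlgebra

def yy : Prom := ⟨0, 2, 0, rfl⟩
def yi : Prom := ⟨0, -2, 0, rfl⟩

lemma dC_eq : dC = [⟨1056576, 0, 1⟩, ⟨1056832, 2, 0⟩, ⟨1057088, 0, 1⟩] := by
  unfold dC decL
  rw [mapL_eq]
  rfl

lemma toP_yi : toP 1056576 = yi := by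
  obtain ⟨h1, h2, h3⟩ := toP_coord (k := 1056576) (by norm_num)
  ext
  · rw [h1]; rfl
  · rw [h2]; rfl
  · rw [h3]; rfl

lemma toP_yy : toP 1057088 = yy := by
  obtain ⟨h1, h2, h3⟩ := toP_coord (k := 1057088) (by norm_num)
  ext
  · rw [h1]; rfl
  · rw [h2]; rfl
  · rw [h3]; rfl

lemma toP_one : toP 1056832 = 1 := by
  obtain ⟨h1, h2, h3⟩ := toP_coord (k := 1056832) (by norm_num)
  ext
  · rw [h1]; rfl
  · rw [h2]; rfl
  · rw [h3]; rfl

lemma yy_mul_yi : yy * yi = 1 := by
  ext <;> simp [yy, yi, sg]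

lemma ev_dC : evf toP dC = single 1 2 - single yy 1 - single yi 1 := by
  rw [dC_eq]
  simp only [evf_cons, evf_nil, toP_yi, toP_yy, toP_one]
  norm_num [MonoidAlgebra.single_neg]
  abel

lemma ev_dC' : evf toP dC = (1 - single yy 1) * (1 - single yi 1) := by
  rw [ev_dC, sub_mul, mul_sub, mul_sub, single_mul_single, yy_mul_yi, one_mul, one_mul, mul_one,
    mul_one, show (single 1 2 : ZP) = single 1 1 + single 1 1 by rw [← single_add]; norm_num,
    one_def]
  abel

lemma conj_y (g : Prom) : (g * yy = yy * g ∧ g * yi = yi * g) ∨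
    (g * yy = yi * g ∧ g * yi = yy * g) := by
  have s2 : sg 2 = 1 := by decide
  have s3 : sg (-2) = 1 := by decide
  have s0 : sg 0 = 1 := by decide
  rcases sg_cases g.a with ⟨_, e⟩ | ⟨_, e⟩
  · left
    constructor <;> ext <;> simp [yy, yi, e, s0, s2, s3] <;> ring
  · right
    constructor <;> ext <;> simp [yy, yi, e, s0, s2, s3] <;> ring

lemma dC_central (α : ZP) : α * evf toP dC = evf toP dC * α := by
  rw [ev_dC]
  induction α using MonoidAlgebra.induction_linear with
  | zero => simp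
  | add a b ha hb => rw [add_mul, mul_add, ha, hb]
  | single g r =>
    simp only [mul_sub, sub_mul, single_mul_single, mul_one, one_mul]
    rcases conj_y g with ⟨h1, h2⟩ | ⟨h1, h2⟩
    · rw [h1, h2, mul_comm r 2]
    · rw [h1, h2, mul_comm r 2]; abel

lemma reg_aux (t : Prom) (s : ℤ) (ht : ∀ h : Prom, s * h.b < s * (t * h).b) (α : ZP)
    (h : (1 - single t 1) * α = 0) : α = 0 := by
  by_contra hne
  have hs : α.coeff.support.Nonempty := by
    rw [Finsupp.support_nonempty_iff]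
    intro h0
    exact hne (by ext g; simp [h0])
  obtain ⟨g, hg, hmax⟩ := Finset.exists_max_image α.coeff.support (fun g => s * g.b) hs
  have e : α = single t 1 * α := by
    rw [sub_mul, one_mul] at h
    exact sub_eq_zero.mp h
  have e2 : α.coeff (t * g) = α.coeff g := by
    conv_lhs => rw [e]
    simp [MonoidAlgebra.coeff_single_mul_apply]
  have hm : t * g ∈ α.coeff.support := by
    rw [Finsupp.mem_support_iff, e2]
    exact Finsupp.mem_support_iff.mp hg
  exact absurd (hmax _ hm) (not_le.mpr (ht g))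

lemma dC_reg (α : ZP) (h : evf toP dC * α = 0) : α = 0 := by
  rw [ev_dC', mul_assoc] at h
  have s0 : sg 0 = 1 := by decide
  refine reg_aux yi (-1) (fun g => ?_) α (reg_aux yy 1 (fun g => ?_) _ h)
  · simp [yi, s0]
  · simp [yy, s0]

lemma alg_step {R : Type*} [Ring R] (c D E S T S' T' W V : R) (hc : ∀ a, a * c = c * a)
    (hreg : ∀ a, c * a = 0 → a = 0) (h1 : D * E = c) (h2 : E * D = c)
    (h3 : S * S' = c * c) (h4 : T * T' = c * c)
    (hW : D * (S * T) * E = c * c * c * W) (hV : D * (T' * S') * E = c * c * c * V) :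
    W * V = 1 := by
  have hcc : ∀ a, Commute a c := hc
  have e1 : c * c * c * W * (c * c * c * V) = c * (c * (c * (c * (c * (c * (W * V)))))) := by
    have : W * (c * c * c * V) = c * c * c * (W * V) := by
      rw [← mul_assoc, (((hcc W).mul_right (hcc W)).mul_right (hcc W)).eq, mul_assoc]
    rw [mul_assoc (c * c * c) W, this]
    simp only [mul_assoc]
  have e2 : D * (S * T) * E * (D * (T' * S') * E) = c * (c * (c * (c * (c * (c * 1))))) := by
    calc D * (S * T) * E * (D * (T' * S') * E)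
        = D * (S * (T * (E * D) * T') * S') * E := by simp only [mul_assoc]
      _ = D * (S * (c * (c * c)) * S') * E := by
          rw [h2, hc T, mul_assoc c T T', h4]
      _ = D * (c * (c * c) * (c * c)) * E := by
          rw [((hcc S).mul_right ((hcc S).mul_right (hcc S))).eq, mul_assoc _ S S', h3]
      _ = c * (c * c) * (c * c) * (D * E) := by
          rw [(((hcc D).mul_right ((hcc D).mul_right (hcc D))).mul_right
            ((hcc D).mul_right (hcc D))).eq, mul_assoc _ D E]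
      _ = c * (c * (c * (c * (c * (c * 1))))) := by rw [h1]; simp only [mul_assoc, mul_one]
  rw [hW, hV, e1] at e2
  have canc : ∀ a b : R, c * a = c * b → a = b := fun a b h =>
    sub_eq_zero.mp (hreg _ (by rw [mul_sub, h, sub_self]))
  exact canc _ _ (canc _ _ (canc _ _ (canc _ _ (canc _ _ (canc _ _ e2)))))

theorem int_unit' : ∃ u : ZPˣ, (u : ZP) = evf toP dW := by
  have hC2 : evf toP dC2 = evf toP dC * evf toP dC := by
    rw [← evf_mulL _ _ ok_C ok_C]; exact (eq_of_isNil _ _ ck_C2).symm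
  have hC3 : evf toP dC3 = evf toP dC * evf toP dC * evf toP dC := by
    rw [← hC2, ← evf_mulL _ _ ok_C2 ok_C]; exact (eq_of_isNil _ _ ck_C3).symm
  have h1 : evf toP dD * evf toP dDt = evf toP dC := by
    rw [← evf_mulL _ _ ok_D ok_Dt]; exact eq_of_isNil _ _ ck_DDt
  have h2 : evf toP dDt * evf toP dD = evf toP dC := by
    rw [← evf_mulL _ _ ok_Dt ok_D]; exact eq_of_isNil _ _ ck_DtD
  have s1 : evf toP dS1 * evf toP dS1p = evf toP dC * evf toP dC := by
    rw [← hC2, ← evf_mulL _ _ ok_S1 ok_S1p]; exact eq_of_isNil _ _ ck_S1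
  have s1p : evf toP dS1p * evf toP dS1 = evf toP dC * evf toP dC := by
    rw [← hC2, ← evf_mulL _ _ ok_S1p ok_S1]; exact eq_of_isNil _ _ ck_S1p
  have s2 : evf toP dS2 * evf toP dS2p = evf toP dC * evf toP dC := by
    rw [← hC2, ← evf_mulL _ _ ok_S2 ok_S2p]; exact eq_of_isNil _ _ ck_S2
  have s2p : evf toP dS2p * evf toP dS2 = evf toP dC * evf toP dC := by
    rw [← hC2, ← evf_mulL _ _ ok_S2p ok_S2]; exact eq_of_isNil _ _ ck_S2p
  have hW := big1_spec _ _ _ ok_D ok_Dt ok_C3 ok_S1 ok_S2 ok_W ck_W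
  have hV := big1_spec _ _ _ ok_D ok_Dt ok_C3 ok_S2p ok_S1p ok_V ck_V
  rw [hC3] at hW hV
  refine ⟨⟨evf toP dW, evf toP dV,
    alg_step _ _ _ _ _ _ _ _ _ dC_central dC_reg h1 h2 s1 s2 hW hV,
    alg_step _ _ _ _ _ _ _ _ _ dC_central dC_reg h1 h2 s2p s1p hV hW⟩, rfl⟩

theorem int_unit : ∃ u : ZPˣ, (u : ZP).coeff (toP 991296) = 332 := by
  obtain ⟨u, hu⟩ := int_unit'
  refine ⟨u, ?_⟩
  rw [hu, evf_coeff 991296 (by decide) dW ok_W, ck_coef.1, ck_coef.2]
  norm_num

theorem int_unit2 : ∃ u : ZPˣ, ∃ g h : Prom, g ≠ h ∧ (u : ZP).coeff g = 1 ∧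
    (u : ZP).coeff h = 1 := by
  obtain ⟨u, hu⟩ := int_unit'
  refine ⟨u, toP 973762, toP 1009090, fun e => ?_, ?_, ?_⟩
  · have := toP_inj (by decide) (by decide) e
    omega
  · rw [hu, evf_coeff 973762 (by decide) dW ok_W, ck_coef2.1, ck_coef2.2.1]
    norm_num
  · rw [hu, evf_coeff 1009090 (by decide) dW ok_W, ck_coef2.2.2.1, ck_coef2.2.2.2]
    norm_num

end Pool.Agent.P.MP_045578_al
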