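import Pool.Agent.P.MP_045578_al.Prom

set_option autoImplicit false

namespace Pool.Agent.P.MP_045578_al

/-- group element from coordinates -/
def el (a b c : ℤ) (h : (a + b + c) % 2 = 0) : Prom := ⟨a, b, c, h⟩

def gam : FS :=
  [(1, 0, el 0 0 0 rfl), (-1, 0, el 0 2 (-2) rfl), (-2, 0, el 0 2 0 rfl), (-1, 0, el 0 2 2 rfl),
   (1, 0, el (-1) (-1) 0 rfl), (1, 0, el (-1) (-1) 2 rfl), (-1, 0, el 1 1 0 rfl),
   (-1, 0, el 1 1 2 rfl), (-1, 1, el (-1) 0 (-1) rfl), (-1, 1, el (-1) 0 1 rfl),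
   (0, -1, el 1 0 (-1) rfl), (0, -1, el 1 0 1 rfl)]

def gamp : FS :=
  [(1, 0, el 0 0 0 rfl), (-1, 0, el 0 (-2) (-2) rfl), (-2, 0, el 0 (-2) 0 rfl),
   (-1, 0, el 0 (-2) 2 rfl),
   (-1, 0, el (-1) (-1) 0 rfl), (-1, 0, el (-1) (-1) 2 rfl), (1, 0, el 1 1 0 rfl),
   (1, 0, el 1 1 2 rfl), (1, -1, el (-1) 0 (-1) rfl), (1, -1, el (-1) 0 1 rfl),
   (0, 1, el 1 0 (-1) rfl), (0, 1, el 1 0 1 rfl)]

/-- minus the fifth cyclotomic polynomial, centred -/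
def fneg : FS :=
  [(-1, 0, el 0 0 (-4) rfl), (-1, 0, el 0 0 (-2) rfl), (-1, 0, el 0 0 0 rfl),
   (-1, 0, el 0 0 2 rfl), (-1, 0, el 0 0 4 rfl)]

def dd : FS := [(1, 0, el 0 0 6 rfl), (-1, 0, el 0 0 4 rfl)]
def dd' : FS := [(1, 0, el 0 0 (-6) rfl), (-1, 0, el 0 0 (-4) rfl)]
def ndd : FS := [(-1, 0, el 0 0 6 rfl), (1, 0, el 0 0 4 rfl)]
def ndd' : FS := [(-1, 0, el 0 0 (-6) rfl), (1, 0, el 0 0 (-4) rfl)]

lemma chk1 : FS.zeroOn (FS.mul gam gamp ++ fneg) (FS.mul gam gamp ++ fneg) = true := by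
  decide +kernel

lemma chk2 : FS.zeroOn (dd ++ dd' ++ FS.mul (FS.mul ndd fneg) dd')
    (dd ++ dd' ++ FS.mul (FS.mul ndd fneg) dd') = true := by
  decide +kernel

lemma chk3 : FS.zeroOn (dd' ++ dd ++ FS.mul (FS.mul ndd' fneg) dd)
    (dd' ++ dd ++ FS.mul (FS.mul ndd' fneg) dd) = true := by
  decide +kernel

lemma chk4 : FS.zeroOn (dd ++ ndd) (dd ++ ndd) = true := by decide +kernel
lemma chk5 : FS.zeroOn (dd' ++ ndd') (dd' ++ ndd') = true := by decide +kernel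

def uu : FS := (1, 0, el 0 0 0 rfl) :: FS.mul (FS.mul gamp dd) gam

lemma chk6 : FS.c1 (el 2 0 8 rfl) uu = 1 ∧ FS.c2 (el 2 0 8 rfl) uu = 0 ∧
    FS.c1 (el 0 2 2 rfl) uu = 1 ∧ FS.c2 (el 0 2 2 rfl) uu = 0 := by
  decide +kernel

lemma jac {R : Type*} [Ring R] (g g' d d' : R) (h : d + d' + d * (g * g') * d' = 0) :
    (1 + g' * d * g) * (1 + g' * d' * g) = 1 := by
  have : (1 + g' * d * g) * (1 + g' * d' * g) = 1 + g' * (d + d' + d * (g * g') * d') * g := by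
    noncomm_ring
  rw [this, h]; simp

theorem gold_unit {K : Type*} [CommRing K] (φ : K) (hφ : φ * φ = φ + 1) :
    ∃ u : (MonoidAlgebra K Prom)ˣ,
      (u : MonoidAlgebra K Prom).coeff (el 2 0 8 rfl) = 1 ∧
      (u : MonoidAlgebra K Prom).coeff (el 0 2 2 rfl) = 1 := by
  have h1 := FS.ev_eq_zero φ _ chk1
  have h2 := FS.ev_eq_zero φ _ chk2
  have h3 := FS.ev_eq_zero φ _ chk3
  have h4 := FS.ev_eq_zero φ _ chk4
  have h5 := FS.ev_eq_zero φ _ chk5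
  simp only [FS.ev_append, FS.ev_mul φ hφ] at h1 h2 h3 h4 h5
  set g := FS.ev φ gam
  set g' := FS.ev φ gamp
  set d := FS.ev φ dd
  set d' := FS.ev φ dd'
  have e1 : FS.ev φ fneg = -(g * g') := (neg_eq_of_add_eq_zero_right h1).symm
  have e4 : FS.ev φ ndd = -d := (neg_eq_of_add_eq_zero_right h4).symm
  have e5 : FS.ev φ ndd' = -d' := (neg_eq_of_add_eq_zero_right h5).symm
  rw [e1, e4, neg_mul_neg] at h2
  rw [e1, e5, neg_mul_neg] at h3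
  have hu : FS.ev φ uu = 1 + g' * d * g := by
    simp only [uu, FS.ev, FS.ev_mul φ hφ]
    congr 1
    simp only [Int.cast_one, Int.cast_zero, zero_mul, add_zero]
    rfl
  refine ⟨⟨1 + g' * d * g, 1 + g' * d' * g, jac g g' d d' h2, jac g g' d' d h3⟩, ?_, ?_⟩
  · show (1 + g' * d * g).coeff _ = 1
    rw [← hu, FS.ev_apply, chk6.1, chk6.2.1]; simp
  · show (1 + g' * d * g).coeff _ = 1
    rw [← hu, FS.ev_apply, chk6.2.2.1, chk6.2.2.2]; simp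

end Pool.Agent.P.MP_045578_al
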