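import Pool.Agent.P.MP_045578_al.Prom

set_option autoImplicit false

namespace Pool.Agent.P.MP_045578_al

/-- a term: key of the group element, positive and negative part of the coefficient -/
structure Tm where
  k : ℕ
  p : ℕ
  n : ℕ

/-- group element with a given key -/
def toP (k : ℕ) : Prom :=
  if h : (((k / 16384 : ℕ) : ℤ) - 64 + (((k / 128 % 128 : ℕ) : ℤ) - 64) + (((k % 128 : ℕ) : ℤ) - 64)) % 2 = 0
  then ⟨((k / 16384 : ℕ) : ℤ) - 64, ((k / 128 % 128 : ℕ) : ℤ) - 64, ((k % 128 : ℕ) : ℤ) - 64, h⟩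
  else 1

def okK (k : ℕ) : Bool :=
  Nat.ble 33 (k / 16384) && (Nat.ble (k / 16384) 95 && (Nat.ble 33 (k / 128 % 128) &&
    (Nat.ble (k / 128 % 128) 95 && (Nat.ble 33 (k % 128) && (Nat.ble (k % 128) 95 &&
      Nat.beq ((k / 16384 + k / 128 % 128 + k % 128) % 2) 0)))))

noncomputable def allOk (l : List Tm) : Bool :=
  List.rec true (fun t _ ih => cond (okK t.k) ih false) l

noncomputable def merge (l : List Tm) : List Tm → List Tm :=
  List.rec (fun m => m)
    (fun x xs ih1 => fun m =>
      List.rec (x :: xs)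
        (fun y ys ih2 =>
          cond (Nat.blt x.k y.k) (x :: ih1 (y :: ys))
            (cond (Nat.blt y.k x.k) (y :: ih2)
              (cond (Nat.beq (x.p + y.p) (x.n + y.n)) (ih1 ys)
                (⟨x.k, x.p + y.p, x.n + y.n⟩ :: ih1 ys)))) m) l

noncomputable def mergePairs (L : List (List Tm)) : Option (List Tm) → List (List Tm) :=
  List.rec (fun o => Option.rec [] (fun a => [a]) o)
    (fun x _ ih => fun o => Option.rec (ih (some x)) (fun a => merge a x :: ih none) o) L

noncomputable def foldMerge (L : List (List Tm)) : List Tm :=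
  List.rec [] (fun x _ ih => merge x ih) L

noncomputable def mergeAll (f : ℕ) : List (List Tm) → List Tm :=
  Nat.rec (fun L => foldMerge L) (fun _ ih => fun L => ih (mergePairs L none)) f

noncomputable def mapL {α β : Type} (f : α → β) (l : List α) : List β :=
  List.rec [] (fun x _ ih => f x :: ih) l

noncomputable def msort (l : List Tm) : List Tm := mergeAll 12 (mapL (fun t => [t]) l)

def flipK (sa sb sc : Bool) (k : ℕ) : ℕ :=
  cond sa (128 - k / 16384) (k / 16384) * 16384 +
    cond sb (128 - k / 128 % 128) (k / 128 % 128) * 128 + cond sc (128 - k % 128) (k % 128)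

noncomputable def flipL (sa sb sc : Bool) (m : List Tm) : List Tm :=
  msort (mapL (fun t => ⟨flipK sa sb sc t.k, t.p, t.n⟩) m)

noncomputable def row (t : Tm) (m : List Tm) : List Tm :=
  mapL (fun u => ⟨t.k + u.k - 1056832, t.p * u.p + t.n * u.n, t.p * u.n + t.n * u.p⟩) m

noncomputable def mul4 (l m0 m1 m2 m3 : List Tm) : List Tm :=
  mergeAll 12 (mapL (fun t => row t
    (cond (Nat.beq (t.k % 2) 0) (cond (Nat.beq (t.k / 16384 % 2) 0) m0 m1)
      (cond (Nat.beq (t.k / 16384 % 2) 0) m2 m3))) l)

noncomputable def mulL (l m : List Tm) : List Tm :=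
  mul4 l (flipL false false false m) (flipL false true true m) (flipL true false true m)
    (flipL true true false m)

noncomputable def negL (l : List Tm) : List Tm := mapL (fun t => ⟨t.k, t.n, t.p⟩) l

noncomputable def isNil (l : List Tm) : Bool := List.rec true (fun _ _ _ => false) l

noncomputable def decL (l : List ℕ) : List Tm :=
  mapL (fun c => ⟨c / 1048576, c % 1048576 - 524288, 524288 - c % 1048576⟩) l

noncomputable def coefP (k : ℕ) (l : List Tm) : ℕ :=
  List.rec 0 (fun t _ ih => cond (Nat.beq t.k k) (t.p + ih) ih) l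

noncomputable def coefN (k : ℕ) (l : List Tm) : ℕ :=
  List.rec 0 (fun t _ ih => cond (Nat.beq t.k k) (t.n + ih) ih) l

abbrev ZP := MonoidAlgebra ℤ Prom

noncomputable def evf (φ : ℕ → Prom) : List Tm → ZP
  | [] => 0
  | t :: l => MonoidAlgebra.single (φ t.k) ((t.p : ℤ) - t.n) + evf φ l

@[simp] lemma evf_nil (φ : ℕ → Prom) : evf φ [] = 0 := rfl
@[simp] lemma evf_cons (φ : ℕ → Prom) (t : Tm) (l : List Tm) :
    evf φ (t :: l) = MonoidAlgebra.single (φ t.k) ((t.p : ℤ) - t.n) + evf φ l := rfl

lemma merge_nil (m : List Tm) : merge [] m = m := rfl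
lemma merge_cons_nil (x : Tm) (xs : List Tm) : merge (x :: xs) [] = x :: xs := rfl
lemma merge_cons_cons (x y : Tm) (xs ys : List Tm) : merge (x :: xs) (y :: ys) =
    cond (Nat.blt x.k y.k) (x :: merge xs (y :: ys))
      (cond (Nat.blt y.k x.k) (y :: merge (x :: xs) ys)
        (cond (Nat.beq (x.p + y.p) (x.n + y.n)) (merge xs ys)
          (⟨x.k, x.p + y.p, x.n + y.n⟩ :: merge xs ys))) := rfl

lemma evf_merge (φ : ℕ → Prom) (l : List Tm) :
    ∀ m : List Tm, evf φ (merge l m) = evf φ l + evf φ m := by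
  induction l with
  | nil => intro m; simp [merge_nil]
  | cons x xs ih1 =>
    intro m
    induction m with
    | nil => simp [merge_cons_nil]
    | cons y ys ih2 =>
      rw [merge_cons_cons]
      cases h1 : Nat.blt x.k y.k
      · cases h2 : Nat.blt y.k x.k
        · have e : x.k = y.k := by
            have a1 : ¬ x.k < y.k := fun h => by simp [Nat.blt_eq.mpr h] at h1
            have a2 : ¬ y.k < x.k := fun h => by simp [Nat.blt_eq.mpr h] at h2
            omega
          cases h3 : Nat.beq (x.p + y.p) (x.n + y.n)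
          · simp only [cond_false, evf_cons, ih1, e]
            rw [show (((x.p + y.p : ℕ) : ℤ) - ((x.n + y.n : ℕ) : ℤ)) =
              ((x.p : ℤ) - x.n) + ((y.p : ℤ) - y.n) by push_cast; ring,
              MonoidAlgebra.single_add]
            abel
          · have e3 : x.p + y.p = x.n + y.n := Nat.eq_of_beq_eq_true h3
            simp only [cond_false, cond_true, evf_cons, ih1, e]
            have : ((y.p : ℤ) - y.n) = -((x.p : ℤ) - x.n) := by omega
            rw [this, MonoidAlgebra.single_neg]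
            abel
        · simp only [cond_false, cond_true, evf_cons, ih2]
          abel
      · simp only [cond_true, evf_cons, ih1]
        abel

noncomputable def evL (φ : ℕ → Prom) (L : List (List Tm)) : ZP := (L.map (evf φ)).sum

lemma evL_mergePairs (φ : ℕ → Prom) (L : List (List Tm)) :
    evL φ (mergePairs L none) = evL φ L ∧
      ∀ a, evL φ (mergePairs L (some a)) = evf φ a + evL φ L := by
  induction L with
  | nil => exact ⟨rfl, fun a => rfl⟩
  | cons x L ih =>
    refine ⟨?_, fun a => ?_⟩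
    · show evL φ (mergePairs L (some x)) = _
      rw [ih.2]; simp [evL]
    · show evL φ (merge a x :: mergePairs L none) = _
      have := ih.1
      simp only [evL, List.map_cons, List.sum_cons, evf_merge] at this ⊢
      rw [this, add_assoc]

lemma evf_foldMerge (φ : ℕ → Prom) (L : List (List Tm)) : evf φ (foldMerge L) = evL φ L := by
  induction L with
  | nil => rfl
  | cons x L ih =>
    show evf φ (merge x (foldMerge L)) = _
    rw [evf_merge, ih]; simp [evL]

lemma evf_mergeAll (φ : ℕ → Prom) (f : ℕ) :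
    ∀ L : List (List Tm), evf φ (mergeAll f L) = evL φ L := by
  induction f with
  | zero => exact evf_foldMerge φ
  | succ f ih =>
    intro L
    show evf φ (mergeAll f (mergePairs L none)) = _
    rw [ih, (evL_mergePairs φ L).1]

lemma mapL_eq {α β : Type} (f : α → β) (l : List α) : mapL f l = l.map f := by
  induction l with
  | nil => rfl
  | cons x l ih => show f x :: mapL f l = _; rw [ih]; rfl

lemma evf_msort (φ : ℕ → Prom) (l : List Tm) : evf φ (msort l) = evf φ l := by
  unfold msort
  rw [evf_mergeAll, mapL_eq]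
  induction l with
  | nil => rfl
  | cons x l ih => simp only [evL, List.map_cons, List.sum_cons] at ih ⊢; rw [ih]; simp

lemma okK_spec {k : ℕ} (h : okK k = true) :
    33 ≤ k / 16384 ∧ k / 16384 ≤ 95 ∧ 33 ≤ k / 128 % 128 ∧ k / 128 % 128 ≤ 95 ∧ 33 ≤ k % 128 ∧
      k % 128 ≤ 95 ∧ (k / 16384 + k / 128 % 128 + k % 128) % 2 = 0 := by
  simpa [okK, Nat.ble_eq, Nat.beq_eq] using h

lemma toP_coord {k : ℕ} (h : (k / 16384 + k / 128 % 128 + k % 128) % 2 = 0) :
    (toP k).a = ((k / 16384 : ℕ) : ℤ) - 64 ∧ (toP k).b = ((k / 128 % 128 : ℕ) : ℤ) - 64 ∧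
      (toP k).c = ((k % 128 : ℕ) : ℤ) - 64 := by
  unfold toP
  rw [dif_pos (by omega)]
  exact ⟨rfl, rfl, rfl⟩

lemma digits (A B C : ℕ) (hB : B < 128) (hC : C < 128) :
    (A * 16384 + B * 128 + C) / 16384 = A ∧ (A * 16384 + B * 128 + C) / 128 % 128 = B ∧
      (A * 16384 + B * 128 + C) % 128 = C := by omega

lemma toP_mul {k j : ℕ} (hk : okK k = true) (hj : okK j = true) (sa sb sc : Bool)
    (h1 : sa = true ↔ k % 2 = 1) (h2 : sb = true ↔ k / 16384 % 2 = 1)
    (h3 : sc = true ↔ k / 128 % 128 % 2 = 1) :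
    toP (k + flipK sa sb sc j - 1056832) = toP k * toP j := by
  obtain ⟨a1, a2, a3, a4, a5, a6, a7⟩ := okK_spec hk
  obtain ⟨b1, b2, b3, b4, b5, b6, b7⟩ := okK_spec hj
  obtain ⟨c1, c2, c3⟩ := toP_coord a7
  obtain ⟨d1, d2, d3⟩ := toP_coord b7
  have hk' : k = k / 16384 * 16384 + k / 128 % 128 * 128 + k % 128 := by omega
  have h1' : sa = true ↔ k % 128 % 2 = 1 := by rw [h1]; omega
  unfold flipK
  generalize k / 16384 = A at *
  generalize k / 128 % 128 = B at *
  generalize k % 128 = C at *
  generalize j / 16384 = A' at *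
  generalize j / 128 % 128 = B' at *
  generalize j % 128 = C' at *
  have key : ∀ u v w : ℕ, 33 ≤ u → u ≤ 95 → 33 ≤ v → v ≤ 95 → 33 ≤ w → w ≤ 95 →
      (u + v + w) % 2 = 0 → (u : ℤ) - 64 = sg ((C : ℤ) - 64) * ((A' : ℤ) - 64) →
      (v : ℤ) - 64 = sg ((A : ℤ) - 64) * ((B' : ℤ) - 64) →
      (w : ℤ) - 64 = sg ((B : ℤ) - 64) * ((C' : ℤ) - 64) →
      toP (k + (u * 16384 + v * 128 + w) - 1056832) = toP k * toP j := by
    intro u v w u1 u2 v1 v2 w1 w2 hp e1 e2 e3
    have e : k + (u * 16384 + v * 128 + w) - 1056832 =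
        (A + u - 64) * 16384 + (B + v - 64) * 128 + (C + w - 64) := by omega
    obtain ⟨g1, g2, g3⟩ := digits (A + u - 64) (B + v - 64) (C + w - 64) (by omega) (by omega)
    rw [e]
    obtain ⟨f1, f2, f3⟩ := toP_coord
      (k := (A + u - 64) * 16384 + (B + v - 64) * 128 + (C + w - 64)) (by rw [g1, g2, g3]; omega)
    rw [g1] at f1
    rw [g2] at f2
    rw [g3] at f3
    ext
    · rw [Prom.mul_a, f1, c1, c3, d1, ← e1]; omega
    · rw [Prom.mul_b, f2, c2, c1, d2, ← e2]; omega
    · rw [Prom.mul_c, f3, c3, c2, d3, ← e3]; omega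
  have s1 : ∀ (s : Bool) (D E : ℕ), (s = true ↔ D % 2 = 1) → 33 ≤ E → E ≤ 95 →
      33 ≤ cond s (128 - E) E ∧ cond s (128 - E) E ≤ 95 ∧ cond s (128 - E) E % 2 = E % 2 ∧
      ((cond s (128 - E) E : ℕ) : ℤ) - 64 = sg ((D : ℤ) - 64) * ((E : ℤ) - 64) := by
    intro s D E hs e1 e2
    cases s
    · have : D % 2 = 0 := by
        have : ¬ D % 2 = 1 := fun h => by simpa using hs.mpr h
        omega
      have hs' : sg ((D : ℤ) - 64) = 1 := by unfold sg; omega
      rw [hs']; simp only [cond_false]
      exact ⟨e1, e2, trivial, by ring⟩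
    · have : D % 2 = 1 := hs.mp rfl
      have hs' : sg ((D : ℤ) - 64) = -1 := by unfold sg; omega
      rw [hs']; simp only [cond_true]
      clear * - e1 e2
      refine ⟨by omega, by omega, by omega, by omega⟩
  obtain ⟨p1, p2, p3, p4⟩ := s1 sa C A' h1' b1 b2
  obtain ⟨q1, q2, q3, q4⟩ := s1 sb A B' h2 b3 b4
  obtain ⟨r1, r2, r3, r4⟩ := s1 sc B C' h3 b5 b6
  exact key _ _ _ p1 p2 q1 q2 r1 r2 (by omega) p4 q4 r4

lemma allOk_cons (t : Tm) (l : List Tm) : allOk (t :: l) = true ↔ okK t.k = true ∧ allOk l = true := by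
  show cond (okK t.k) (allOk l) false = true ↔ _
  cases okK t.k <;> simp

lemma evf_row (t : Tm) (m : List Tm) :
    evf toP (row t m) = ((t.p : ℤ) - t.n) • evf (fun j => toP (t.k + j - 1056832)) m := by
  unfold row
  rw [mapL_eq]
  induction m with
  | nil => simp
  | cons u m ih =>
    simp only [List.map_cons, evf_cons, ih, smul_add, MonoidAlgebra.smul_single, smul_eq_mul]
    congr 2
    push_cast; ring

lemma evf_row_flip (t : Tm) (ht : okK t.k = true) (sa sb sc : Bool)
    (h1 : sa = true ↔ t.k % 2 = 1) (h2 : sb = true ↔ t.k / 16384 % 2 = 1)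
    (h3 : sc = true ↔ t.k / 128 % 128 % 2 = 1) (m : List Tm) (hm : allOk m = true) :
    evf toP (row t (flipL sa sb sc m)) =
      MonoidAlgebra.single (toP t.k) ((t.p : ℤ) - t.n) * evf toP m := by
  rw [evf_row, flipL, evf_msort, mapL_eq]
  induction m with
  | nil => simp
  | cons u m ih =>
    obtain ⟨hu, hm'⟩ := (allOk_cons u m).mp hm
    simp only [List.map_cons, evf_cons, smul_add, mul_add, ih hm',
      MonoidAlgebra.single_mul_single, MonoidAlgebra.smul_single, smul_eq_mul,
      toP_mul ht hu sa sb sc h1 h2 h3]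

lemma evf_mulL (l m : List Tm) (hl : allOk l = true) (hm : allOk m = true) :
    evf toP (mulL l m) = evf toP l * evf toP m := by
  unfold mulL mul4
  rw [evf_mergeAll, mapL_eq]
  induction l with
  | nil => simp [evL]
  | cons t l ih =>
    obtain ⟨ht, hl'⟩ := (allOk_cons t l).mp hl
    have ih' := ih hl'
    simp only [evL, List.map_cons, List.sum_cons, evf_cons, add_mul] at ih' ⊢
    rw [ih']
    congr 1
    obtain ⟨a1, a2, a3, a4, a5, a6, a7⟩ := okK_spec ht
    cases e1 : Nat.beq (t.k % 2) 0 <;> cases e2 : Nat.beq (t.k / 16384 % 2) 0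
    · have f1 := Nat.ne_of_beq_eq_false e1
      have f2 := Nat.ne_of_beq_eq_false e2
      exact evf_row_flip t ht true true false (by simp; omega) (by simp; omega) (by simp; omega) m hm
    · have f1 := Nat.ne_of_beq_eq_false e1
      have f2 := Nat.eq_of_beq_eq_true e2
      exact evf_row_flip t ht true false true (by simp; omega) (by simp; omega) (by simp; omega) m hm
    · have f1 := Nat.eq_of_beq_eq_true e1
      have f2 := Nat.ne_of_beq_eq_false e2
      exact evf_row_flip t ht false true true (by simp; omega) (by simp; omega) (by simp; omega) m hm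
    · have f1 := Nat.eq_of_beq_eq_true e1
      have f2 := Nat.eq_of_beq_eq_true e2
      exact evf_row_flip t ht false false false (by simp; omega) (by simp; omega) (by simp; omega)
        m hm

lemma evf_negL (φ : ℕ → Prom) (l : List Tm) : evf φ (negL l) = -evf φ l := by
  unfold negL
  rw [mapL_eq]
  induction l with
  | nil => simp
  | cons t l ih =>
    simp only [List.map_cons, evf_cons, ih, neg_add, ← MonoidAlgebra.single_neg, neg_sub]

lemma eq_of_isNil (l m : List Tm) (h : isNil (merge l (negL m)) = true) :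
    evf toP l = evf toP m := by
  have e : merge l (negL m) = [] := by
    cases h' : merge l (negL m) with
    | nil => rfl
    | cons x xs => rw [h'] at h; exact absurd h (by simp [isNil])
  have := evf_merge toP l (negL m)
  rw [e, evf_negL, evf_nil] at this
  exact (sub_eq_zero.mp (by rw [sub_eq_add_neg]; exact this.symm))

lemma toP_inj {k j : ℕ} (hk : okK k = true) (hj : okK j = true) (h : toP k = toP j) : k = j := by
  obtain ⟨a1, a2, a3, a4, a5, a6, a7⟩ := okK_spec hk
  obtain ⟨b1, b2, b3, b4, b5, b6, b7⟩ := okK_spec hj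
  obtain ⟨c1, c2, c3⟩ := toP_coord a7
  obtain ⟨d1, d2, d3⟩ := toP_coord b7
  rw [h] at c1 c2 c3
  omega

lemma evf_coeff (k : ℕ) (hk : okK k = true) (l : List Tm) (hl : allOk l = true) :
    (evf toP l).coeff (toP k) = (coefP k l : ℤ) - coefN k l := by
  induction l with
  | nil => simp [coefP, coefN]
  | cons t l ih =>
    obtain ⟨ht, hl'⟩ := (allOk_cons t l).mp hl
    have e1 : coefP k (t :: l) = cond (Nat.beq t.k k) (t.p + coefP k l) (coefP k l) := rfl
    have e2 : coefN k (t :: l) = cond (Nat.beq t.k k) (t.n + coefN k l) (coefN k l) := rfl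
    rw [e1, e2]
    cases e : Nat.beq t.k k
    · have f : toP t.k ≠ toP k := fun h => Nat.ne_of_beq_eq_false e (toP_inj ht hk h)
      simp [ih hl', f]
    · have f := Nat.eq_of_beq_eq_true e
      simp [ih hl', f]
      ring

end Pool.Agent.P.MP_045578_al
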