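import Mathlib

set_option autoImplicit false

namespace Pool.Agent.P.MP_045578_al

/-- the sign (-1)^n -/
def sg (n : ℤ) : ℤ := 1 - 2 * (n % 2)

lemma sg_cases (n : ℤ) : (n % 2 = 0 ∧ sg n = 1) ∨ (n % 2 = 1 ∧ sg n = -1) := by
  unfold sg; omega

lemma sg_add_mul (m n l : ℤ) : sg (m + sg l * n) = sg m * sg n := by
  rcases sg_cases m with ⟨h1, e1⟩ | ⟨h1, e1⟩ <;> rcases sg_cases n with ⟨h2, e2⟩ | ⟨h2, e2⟩ <;>
    rcases sg_cases l with ⟨h3, e3⟩ | ⟨h3, e3⟩ <;> rw [e1, e2, e3] <;> unfold sg <;> omega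

lemma sg_sq (n : ℤ) : sg n * sg n = 1 := by
  rcases sg_cases n with ⟨_, e⟩ | ⟨_, e⟩ <;> rw [e] <;> norm_num

/-- The Promislow group as the lattice a+b+c even with a twisted product. -/
@[ext] structure Prom where
  a : ℤ
  b : ℤ
  c : ℤ
  h : (a + b + c) % 2 = 0

namespace Prom

def mul (x y : Prom) : Prom :=
  ⟨x.a + sg x.c * y.a, x.b + sg x.a * y.b, x.c + sg x.b * y.c, by
    have hx := x.h
    have hy := y.h
    rcases sg_cases x.a with ⟨h1, e1⟩ | ⟨h1, e1⟩ <;> rcases sg_cases x.b with ⟨h2, e2⟩ | ⟨h2, e2⟩ <;>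
      rcases sg_cases x.c with ⟨h3, e3⟩ | ⟨h3, e3⟩ <;> rw [e1, e2, e3] <;> omega⟩

def inv (x : Prom) : Prom :=
  ⟨-(sg x.c * x.a), -(sg x.a * x.b), -(sg x.b * x.c), by
    have hx := x.h
    rcases sg_cases x.a with ⟨h1, e1⟩ | ⟨h1, e1⟩ <;> rcases sg_cases x.b with ⟨h2, e2⟩ | ⟨h2, e2⟩ <;>
      rcases sg_cases x.c with ⟨h3, e3⟩ | ⟨h3, e3⟩ <;> rw [e1, e2, e3] <;> omega⟩

def one : Prom := ⟨0, 0, 0, by norm_num⟩

instance : Mul Prom := ⟨mul⟩
instance : One Prom := ⟨one⟩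
instance : Inv Prom := ⟨inv⟩

@[simp] lemma mul_a (x y : Prom) : (x * y).a = x.a + sg x.c * y.a := rfl
@[simp] lemma mul_b (x y : Prom) : (x * y).b = x.b + sg x.a * y.b := rfl
@[simp] lemma mul_c (x y : Prom) : (x * y).c = x.c + sg x.b * y.c := rfl
@[simp] lemma one_a : (1 : Prom).a = 0 := rfl
@[simp] lemma one_b : (1 : Prom).b = 0 := rfl
@[simp] lemma one_c : (1 : Prom).c = 0 := rfl
@[simp] lemma inv_a (x : Prom) : (x⁻¹).a = -(sg x.c * x.a) := rfl
@[simp] lemma inv_b (x : Prom) : (x⁻¹).b = -(sg x.a * x.b) := rfl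
@[simp] lemma inv_c (x : Prom) : (x⁻¹).c = -(sg x.b * x.c) := rfl

lemma sg_zero : sg 0 = 1 := by decide

lemma sg_neg_mul (l n : ℤ) : sg (-(sg l * n)) = sg n := by
  rcases sg_cases n with ⟨h2, e2⟩ | ⟨h2, e2⟩ <;>
    rcases sg_cases l with ⟨h3, e3⟩ | ⟨h3, e3⟩ <;> rw [e2, e3] <;> unfold sg <;> omega

instance : Group Prom :=
  Group.ofLeftAxioms
    (fun x y z => by
      ext <;> simp only [mul_a, mul_b, mul_c, sg_add_mul] <;> ring)
    (fun x => by
      ext <;> simp [sg_zero])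
    (fun x => by
      ext <;> simp [sg_neg_mul])

lemma pow_even (x : Prom) (ha : x.a % 2 = 0) (hb : x.b % 2 = 0) (hc : x.c % 2 = 0) (n : ℕ) :
    (x ^ n).a = n * x.a ∧ (x ^ n).b = n * x.b ∧ (x ^ n).c = n * x.c := by
  have e1 : sg x.a = 1 := by unfold sg; omega
  have e2 : sg x.b = 1 := by unfold sg; omega
  have e3 : sg x.c = 1 := by unfold sg; omega
  induction n with
  | zero => simp
  | succ n ih =>
    obtain ⟨i1, i2, i3⟩ := ih
    rw [pow_succ']
    simp only [mul_a, mul_b, mul_c, e1, e2, e3, i1, i2, i3]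
    push_cast
    refine ⟨by ring, by ring, by ring⟩

lemma sq_eq_one (x : Prom) (h : x * x = 1) : x = 1 := by
  have h1 := congrArg Prom.a h
  have h2 := congrArg Prom.b h
  have h3 := congrArg Prom.c h
  have hx := x.h
  simp only [mul_a, mul_b, mul_c, one_a, one_b, one_c] at h1 h2 h3
  rcases sg_cases x.a with ⟨k1, e1⟩ | ⟨k1, e1⟩ <;> rcases sg_cases x.b with ⟨k2, e2⟩ | ⟨k2, e2⟩ <;>
    rcases sg_cases x.c with ⟨k3, e3⟩ | ⟨k3, e3⟩ <;> rw [e3] at h1 <;> rw [e1] at h2 <;>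
    rw [e2] at h3 <;> ext <;> simp only [one_a, one_b, one_c] <;> omega

theorem torsionFree (g : Prom) (n : ℕ) (hn : 0 < n) (h : g ^ n = 1) : g = 1 := by
  apply sq_eq_one
  have h2 : (g * g) ^ n = 1 := by
    rw [← pow_two, ← pow_mul, mul_comm, pow_mul, h, one_pow]
  have hp := pow_even (g * g) (by
      simp only [mul_a]
      rcases sg_cases g.c with ⟨_, e⟩ | ⟨_, e⟩ <;> rw [e] <;> omega) (by
      simp only [mul_b]
      rcases sg_cases g.a with ⟨_, e⟩ | ⟨_, e⟩ <;> rw [e] <;> omega) (by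
      simp only [mul_c]
      rcases sg_cases g.b with ⟨_, e⟩ | ⟨_, e⟩ <;> rw [e] <;> omega) n
  rw [h2] at hp
  obtain ⟨p1, p2, p3⟩ := hp
  have hn' : (n : ℤ) ≠ 0 := by exact_mod_cast hn.ne'
  ext
  · exact (mul_eq_zero.mp p1.symm).resolve_left hn'
  · exact (mul_eq_zero.mp p2.symm).resolve_left hn'
  · exact (mul_eq_zero.mp p3.symm).resolve_left hn'

/-- boolean equality -/
def beq (x y : Prom) : Bool := decide (x.a = y.a) && (decide (x.b = y.b) && decide (x.c = y.c))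

lemma beq_iff (x y : Prom) : beq x y = true ↔ x = y := by
  unfold beq
  simp only [Bool.and_eq_true, decide_eq_true_eq]
  constructor
  · rintro ⟨h1, h2, h3⟩; exact Prom.ext h1 h2 h3
  · rintro rfl; exact ⟨rfl, rfl, rfl⟩

end Prom

/-- formal sums with coefficients p + q φ -/
abbrev FS := List (ℤ × ℤ × Prom)

def FS.mul1 (t : ℤ × ℤ × Prom) : FS → FS
  | [] => []
  | s :: l => (t.1 * s.1 + t.2.1 * s.2.1, t.1 * s.2.1 + t.2.1 * s.1 + t.2.1 * s.2.1,
      Prom.mul t.2.2 s.2.2) :: FS.mul1 t l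

def FS.mul : FS → FS → FS
  | [], _ => []
  | t :: l, m => FS.mul1 t m ++ FS.mul l m

def FS.c1 (g : Prom) : FS → ℤ
  | [] => 0
  | t :: l => if Prom.beq t.2.2 g then t.1 + FS.c1 g l else FS.c1 g l

def FS.c2 (g : Prom) : FS → ℤ
  | [] => 0
  | t :: l => if Prom.beq t.2.2 g then t.2.1 + FS.c2 g l else FS.c2 g l

def FS.zeroOn (l : FS) : FS → Bool
  | [] => true
  | t :: m => decide (FS.c1 t.2.2 l = 0) && (decide (FS.c2 t.2.2 l = 0) && FS.zeroOn l m)

section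
variable {K : Type*} [CommRing K] (φ : K)

noncomputable def FS.ev : FS → MonoidAlgebra K Prom
  | [] => 0
  | t :: l => MonoidAlgebra.single t.2.2 ((t.1 : K) + (t.2.1 : K) * φ) + FS.ev l

lemma FS.ev_append (l m : FS) : FS.ev φ (l ++ m) = FS.ev φ l + FS.ev φ m := by
  induction l with
  | nil => simp [FS.ev]
  | cons t l ih => simp only [List.cons_append, FS.ev, ih, add_assoc]

lemma FS.ev_mul1 (hφ : φ * φ = φ + 1) (t : ℤ × ℤ × Prom) (m : FS) :
    FS.ev φ (FS.mul1 t m) =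
      MonoidAlgebra.single t.2.2 ((t.1 : K) + (t.2.1 : K) * φ) * FS.ev φ m := by
  induction m with
  | nil => simp [FS.ev, FS.mul1]
  | cons s m ih =>
    simp only [FS.mul1, FS.ev, ih, mul_add, MonoidAlgebra.single_mul_single]
    congr 2
    push_cast
    linear_combination (-(t.2.1 : K) * (s.2.1 : K)) * hφ

lemma FS.ev_mul (hφ : φ * φ = φ + 1) (l m : FS) :
    FS.ev φ (FS.mul l m) = FS.ev φ l * FS.ev φ m := by
  induction l with
  | nil => simp [FS.ev, FS.mul]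
  | cons t l ih => simp only [FS.mul, FS.ev, FS.ev_append, FS.ev_mul1 φ hφ, ih, add_mul]

lemma FS.ev_apply (l : FS) (g : Prom) :
    (FS.ev φ l).coeff g = (FS.c1 g l : K) + (FS.c2 g l : K) * φ := by
  induction l with
  | nil => simp [FS.ev, FS.c1, FS.c2]
  | cons t l ih =>
    by_cases h : t.2.2 = g
    · have hb : Prom.beq t.2.2 g = true := (Prom.beq_iff _ _).mpr h
      simp only [FS.ev, FS.c1, FS.c2, hb, if_true]
      subst h
      simp [ih]
      ring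
    · have hb : Prom.beq t.2.2 g = false := by
        rw [Bool.eq_false_iff]; exact fun h' => h ((Prom.beq_iff _ _).mp h')
      simp only [FS.ev, FS.c1, FS.c2, hb]
      simp [ih, h]

lemma FS.c_of_not_mem (l : FS) (g : Prom) (h : ∀ t ∈ l, t.2.2 ≠ g) :
    FS.c1 g l = 0 ∧ FS.c2 g l = 0 := by
  induction l with
  | nil => simp [FS.c1, FS.c2]
  | cons t l ih =>
    have hb : Prom.beq t.2.2 g = false := by
      rw [Bool.eq_false_iff]; exact fun h' => h t (by simp) ((Prom.beq_iff _ _).mp h')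
    simp only [FS.c1, FS.c2, hb]
    simpa using ih (fun s hs => h s (by simp [hs]))

lemma FS.zeroOn_spec (l m : FS) (h : FS.zeroOn l m = true) :
    ∀ t ∈ m, FS.c1 t.2.2 l = 0 ∧ FS.c2 t.2.2 l = 0 := by
  induction m with
  | nil => simp
  | cons s m ih =>
    simp only [FS.zeroOn, Bool.and_eq_true, decide_eq_true_eq] at h
    intro t ht
    rcases List.mem_cons.mp ht with rfl | ht
    · exact ⟨h.1, h.2.1⟩
    · exact ih h.2.2 t ht

lemma FS.ev_eq_zero (l : FS) (h : FS.zeroOn l l = true) : FS.ev φ l = 0 := by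
  ext g
  rw [FS.ev_apply]
  have : FS.c1 g l = 0 ∧ FS.c2 g l = 0 := by
    by_cases hg : ∃ t ∈ l, t.2.2 = g
    · obtain ⟨t, ht, rfl⟩ := hg
      exact FS.zeroOn_spec l l h t ht
    · exact FS.c_of_not_mem l g (fun t ht e => hg ⟨t, ht, e⟩)
  simp [this.1, this.2]

end

end Pool.Agent.P.MP_045578_al
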